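import Mathlib
import Pool.Agent.H35.AlonLoc

set_option autoImplicit false

namespace Pool.Agent.Results.MP_fad78f_co.Order

open Finset Pool.Agent.H35.AlonLoc

/-- The fork on `a = 0, b = 1, c = 2, d = 3, e = 4` with edges `ab, ac, ad, de`. -/
def fork : SimpleGraph (Fin 5) :=
  SimpleGraph.fromRel (fun x y => (x = 0 ∧ y = 1) ∨ (x = 0 ∧ y = 2) ∨ (x = 0 ∧ y = 3) ∨
    (x = 3 ∧ y = 4))

/-- `G` has no induced fork and no induced `4K₁`. -/
def InClass {V : Type} (G : SimpleGraph V) : Prop :=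
  IsEmpty (fork ↪g G) ∧ IsEmpty ((⊥ : SimpleGraph (Fin 4)) ↪g G)

section str
variable {V : Type} (H : SimpleGraph V)

def K4F : Prop := ∀ a b c d, H.Adj a b → H.Adj a c → H.Adj a d → H.Adj b c → H.Adj b d →
  H.Adj c d → False

def KiteF : Prop := ∀ a b c d e, H.Adj b c → H.Adj b d → H.Adj c d → H.Adj b e → H.Adj c e →
  H.Adj a e → ¬ H.Adj d e → ¬ H.Adj a b → ¬ H.Adj a c → ¬ H.Adj a d → False

def Rch (v : V) : V → V → Prop :=
  Relation.ReflTransGen (fun x y => H.Adj x y ∧ H.Adj v x ∧ H.Adj v y)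

def Col3 (Q : Set V) : Prop := ∃ c : V → Fin 3, ∀ y ∈ Q, ∀ z ∈ Q, H.Adj y z → c y ≠ c z

def Rich (v x : V) : Prop := H.Adj v x ∧ ¬ Col3 H {y | Rch H v x y}

variable {H}

lemma rch_adj {v x y : V} (hx : H.Adj v x) (h : Rch H v x y) : H.Adj v y := by
  induction h with
  | refl => exact hx
  | tail _ h _ => exact h.2.2

lemma rch_symm {v x y : V} (h : Rch H v x y) : Rch H v y x := by
  induction h with
  | refl => exact .refl
  | tail _ h ih => exact Relation.ReflTransGen.head ⟨h.1.symm, h.2.2, h.2.1⟩ ih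

lemma cover (h4 : K4F H) (hk : KiteF H) {v x a x1 : V} (hx : H.Adj v x) (hva : ¬ H.Adj v a)
    (hx1 : Rch H v x x1) (ha : H.Adj a x1) {y z : V} (hy : Rch H v x y) (hz : Rch H v x z)
    (hyz : H.Adj y z) : H.Adj a y ∨ H.Adj a z := by
  have P : ∀ y, Rch H v x1 y → H.Adj a y ∨ ∀ z, H.Adj v z → H.Adj y z → H.Adj a z := by
    intro y hy
    induction hy with
    | refl => exact Or.inl ha
    | @tail y y' _ h ih =>
      by_cases h1 : H.Adj a y'
      · exact Or.inl h1
      · right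
        intro z hvz hz
        rcases ih with h2 | h2
        · by_contra h3
          exact hk a v y' z y h.2.2 hvz hz h.2.1 h.1.symm h2
            (fun h5 => h4 v y y' z h.2.1 h.2.2 hvz h.1 h5.symm hz)
            (fun h5 => hva h5.symm) h1 h3
        · exact absurd (h2 y' h.2.2 h.1) h1
  rcases P y ((rch_symm hx1).trans hy) with h | h
  · exact Or.inl h
  · exact Or.inr (h z (rch_adj hx hz) hyz)

/-- the independent set attached to a rich component -/
def II (v x u : V) : Prop := u = v ∨ (¬ H.Adj v u ∧ ∃ x1, Rch H v x x1 ∧ H.Adj u x1)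

lemma ii_indep (h4 : K4F H) (hk : KiteF H) {v x : V} (hr : Rich H v x) {a b : V}
    (ha : II (H := H) v x a) (hb : II (H := H) v x b) : ¬ H.Adj a b := by
  classical
  intro hab
  rcases ha with rfl | ⟨ha, x1, hx1, ha1⟩
  · rcases hb with rfl | ⟨hb, -⟩
    · exact H.irrefl hab
    · exact hb hab
  · rcases hb with rfl | ⟨hb, x2, hx2, hb2⟩
    · exact ha hab.symm
    · apply hr.2
      refine ⟨fun y => if ¬ H.Adj a y then 0 else if ¬ H.Adj b y then 1 else 2, ?_⟩
      intro y hy z hz hyz hc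
      have c1 := cover h4 hk hr.1 ha hx1 ha1 hy hz hyz
      have c2 := cover h4 hk hr.1 hb hx2 hb2 hy hz hyz
      have c3 := h4 a b y z hab
      by_cases p1 : H.Adj a y <;> by_cases p2 : H.Adj a z <;> by_cases p3 : H.Adj b y <;>
        by_cases p4 : H.Adj b z <;> simp_all

lemma ii_nbr (h4 : K4F H) (hk : KiteF H) {v x : V} (hr : Rich H v x) {a w : V}
    (ha : II (H := H) v x a) (hw : H.Adj a w) : H.Adj v w := by
  classical
  rcases ha with rfl | ⟨ha, x1, hx1, ha1⟩
  · exact hw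
  · by_contra hvw
    have hex : ∃ y z, Rch H v x y ∧ Rch H v x z ∧ H.Adj y z ∧ H.Adj a y ∧ H.Adj a z := by
      by_contra hno
      apply hr.2
      refine ⟨fun y => if H.Adj a y then 0 else 1, ?_⟩
      intro y hy z hz hyz hc
      have c1 := cover h4 hk hr.1 ha hx1 ha1 hy hz hyz
      by_cases p1 : H.Adj a y <;> by_cases p2 : H.Adj a z
      · exact hno ⟨y, z, hy, hz, hyz, p1, p2⟩
      all_goals simp_all
    obtain ⟨y, z, hy, hz, hyz, hay, haz⟩ := hex
    have hII : II (H := H) v x a := Or.inr ⟨ha, x1, hx1, ha1⟩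
    refine hk w y z v a hyz (rch_adj hr.1 hy).symm (rch_adj hr.1 hz).symm hay.symm haz.symm
      hw.symm ha ?_ ?_ (fun h => hvw h.symm)
    · exact fun h => ii_indep h4 hk hr hII (Or.inr ⟨hvw, y, hy, h⟩) hw
    · exact fun h => ii_indep h4 hk hr hII (Or.inr ⟨hvw, z, hz, h⟩) hw

lemma ii_not_rich (h4 : K4F H) (hk : KiteF H) {v x : V} (hr : Rich H v x) {u w : V}
    (hu : II (H := H) v x u) : ¬ Rich H w u := by
  classical
  intro hw
  have hvw : H.Adj v w := ii_nbr h4 hk hr hu hw.1.symm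
  have P : ∀ y, Rch H w u y → II (H := H) v x y ∨ H.Adj v y := by
    intro y hy
    induction hy with
    | refl => exact Or.inl hu
    | @tail y y' _ h ih =>
      rcases ih with h1 | h1
      · exact Or.inr (ii_nbr h4 hk hr h1 h.1)
      · by_cases h2 : H.Adj v y'
        · exact Or.inr h2
        · left
          by_cases h3 : Rch H v x w
          · exact Or.inr ⟨h2, w, h3, h.2.2.symm⟩
          · by_cases h5 : y' = v
            · exact Or.inl h5
            · refine Or.inr ⟨h2, x, .refl, ?_⟩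
              by_contra h6
              refine hk x w y y' v h.2.1 h.2.2 h.1 hvw.symm h1.symm hr.1.symm
                (fun h7 => h2 h7.symm) ?_ ?_ (fun h7 => h6 h7.symm)
              · exact fun h7 => h3 (Relation.ReflTransGen.single ⟨h7, hr.1, hvw⟩)
              · exact fun h7 => h3 ((Relation.ReflTransGen.single ⟨h7, hr.1, h1⟩).tail
                  ⟨h.2.1.symm, h1, hvw⟩)
  apply hw.2
  refine ⟨fun y => if H.Adj v y then 0 else 1, ?_⟩
  intro y hy z hz hyz hc
  have a1 := rch_adj hw.1 hy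
  have a2 := rch_adj hw.1 hz
  by_cases p1 : H.Adj v y <;> by_cases p2 : H.Adj v z
  · exact h4 v w y z hvw p1 p2 a1 a2 hyz
  · simp [p1, p2] at hc
  · simp [p1, p2] at hc
  · exact ii_indep h4 hk hr ((P y hy).resolve_right p1) ((P z hz).resolve_right p2) hyz

lemma rich_tri (h4 : K4F H) (hk : KiteF H) {a b c : V} (ha : ∃ v, Rich H v a)
    (hb : ∃ v, Rich H v b) (hc : ∃ v, Rich H v c) (hab : H.Adj a b) (hac : H.Adj a c)
    (hbc : H.Adj b c) : False := by
  obtain ⟨v, hr⟩ := ha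
  have key : ∀ y, H.Adj a y → (∃ w, Rich H w y) → H.Adj v y := by
    rintro y hy ⟨w, hw⟩
    by_contra h
    exact ii_not_rich h4 hk hr (Or.inr ⟨h, a, .refl, hy.symm⟩) hw
  exact h4 v a b c hr.1 (key b hab hb) (key c hac hc) hab hac hbc

lemma poor_col (v : V) : ∃ c : V → Fin 3, ∀ y z, ¬ Rich H v y → H.Adj v y → H.Adj v z →
    H.Adj y z → c y ≠ c z := by
  classical
  have : ∀ Q : Set V, ∃ c : V → Fin 3, Col3 H Q → ∀ y ∈ Q, ∀ z ∈ Q, H.Adj y z → c y ≠ c z := by
    intro Q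
    by_cases h : Col3 H Q
    · obtain ⟨c, hc⟩ := h
      exact ⟨c, fun _ => hc⟩
    · exact ⟨fun _ => 0, fun h' => absurd h' h⟩
  choose C hC using this
  refine ⟨fun y => C {t | Rch H v y t} y, ?_⟩
  intro y z hy hvy hvz hyz
  have hyz' : Rch H v y z := Relation.ReflTransGen.single ⟨hyz, hvy, hvz⟩
  have e : {t | Rch H v z t} = {t | Rch H v y t} := by
    ext t
    exact ⟨fun h => hyz'.trans h, fun h => (rch_symm hyz').trans h⟩
  have hcol : Col3 H {t | Rch H v y t} := by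
    by_contra h
    exact hy ⟨hvy, h⟩
  simp only [e]
  exact hC _ hcol y Relation.ReflTransGen.refl z hyz' hyz

end str

lemma induce_bound {V : Type} [Fintype V] (H : SimpleGraph V) (k : ℕ) (hk : 1 ≤ k)
    (hα : ∀ W, Ind H W → W.card ≤ k) (S : Set V) [Fintype S]
    (hc : ∀ v ∈ S, ∃ c : V → Fin 3, ∀ y ∈ S, ∀ z ∈ S, H.Adj v y → H.Adj v z → H.Adj y z →
      c y ≠ c z) : (Fintype.card S : ℝ) * Real.log (3 * k) ≤ 120 * k ^ 2 := by
  classical
  refine alon (H.induce S) k hk ?_ ?_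
  · intro W hW
    rw [← card_map (Function.Embedding.subtype _)]
    apply hα
    intro a ha b hb
    obtain ⟨a', ha', rfl⟩ := mem_map.1 ha
    obtain ⟨b', hb', rfl⟩ := mem_map.1 hb
    exact hW a' ha' b' hb'
  · intro v
    obtain ⟨c, hc⟩ := hc v v.2
    exact ⟨fun y => c y, fun y z h1 h2 h3 => hc y y.2 z z.2 h1 h2 h3⟩

lemma card_bound {V : Type} [Fintype V] (H : SimpleGraph V) (h4 : K4F H) (hk : KiteF H) (k : ℕ)
    (hk1 : 1 ≤ k) (hα : ∀ W, Ind H W → W.card ≤ k) :
    (Fintype.card V : ℝ) * Real.log (3 * k) ≤ 240 * k ^ 2 := by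
  classical
  have b1 := induce_bound H k hk1 hα {x | ∃ v, Rich H v x} (fun v hv =>
    ⟨fun _ => 0, fun y hy z hz h1 h2 h3 => (rich_tri h4 hk hv hy hz h1 h2 h3).elim⟩)
  have b2 := induce_bound H k hk1 hα ({x | ∃ v, Rich H v x}ᶜ) (fun v _ => by
    obtain ⟨c, hc⟩ := poor_col (H := H) v
    exact ⟨c, fun y hy z _ h1 h2 h3 => hc y z (fun h => hy ⟨v, h⟩) h1 h2 h3⟩)
  have e := Fintype.card_compl_set {x | ∃ v, Rich H v x}
  have e2 := set_fintype_card_le_univ {x | ∃ v, Rich H v x}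
  have e3 : (Fintype.card V : ℝ) = Fintype.card {x | ∃ v, Rich H v x} +
      Fintype.card ↥({x | ∃ v, Rich H v x}ᶜ) := by
    have : Fintype.card V = Fintype.card {x | ∃ v, Rich H v x} +
      Fintype.card ↥({x | ∃ v, Rich H v x}ᶜ) := by omega
    exact_mod_cast this
  rw [e3]
  linarith

lemma k4_of {V : Type} (G : SimpleGraph V) (h : InClass G) : K4F Gᶜ := by
  intro a b c d h1 h2 h3 h4 h5 h6
  rw [SimpleGraph.compl_adj] at h1 h2 h3 h4 h5 h6
  refine h.2.false ⟨⟨![a, b, c, d], ?_⟩, ?_⟩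
  · intro i j hij
    fin_cases i <;> fin_cases j <;> simp_all [eq_comm]
  · intro i j
    have s := G.adj_comm
    fin_cases i <;> fin_cases j <;> simp <;> tauto

lemma kite_of {V : Type} (G : SimpleGraph V) (h : InClass G) : KiteF Gᶜ := by
  intro a b c d e h1 h2 h3 h4 h5 h6 h7 h8 h9 h10
  have n1 : a ≠ b := fun h => h9 (h ▸ h1)
  have n2 : a ≠ c := fun h => h8 (h ▸ h1.symm)
  have n3 : a ≠ d := fun h => h7 (h ▸ h6)
  have n4 : d ≠ e := fun h => h10 (h ▸ h6)
  rw [SimpleGraph.compl_adj] at h1 h2 h3 h4 h5 h6 h7 h8 h9 h10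
  have g1 : G.Adj a b := by tauto
  have g2 : G.Adj a c := by tauto
  have g3 : G.Adj a d := by tauto
  have g4 : G.Adj d e := by tauto
  have g1' := g1.symm
  have g2' := g2.symm
  have g3' := g3.symm
  have g4' := g4.symm
  have k1 : ¬ G.Adj c b := fun h => h1.2 h.symm
  have k2 : ¬ G.Adj d b := fun h => h2.2 h.symm
  have k3 : ¬ G.Adj d c := fun h => h3.2 h.symm
  have k4 : ¬ G.Adj e b := fun h => h4.2 h.symm
  have k5 : ¬ G.Adj e c := fun h => h5.2 h.symm
  have k6 : ¬ G.Adj e a := fun h => h6.2 h.symm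
  refine h.1.false ⟨⟨![a, b, c, d, e], ?_⟩, ?_⟩
  · intro i j hij
    fin_cases i <;> fin_cases j <;> simp_all [eq_comm]
  · intro i j
    fin_cases i <;> fin_cases j <;> simp [fork] <;>
      first | assumption | exact h1.2 | exact h2.2 | exact h3.2 | exact h4.2 | exact h5.2 | exact h6.2

lemma upper (n : ℕ) (G : SimpleGraph (Fin n)) (h : InClass G) (k : ℕ) (hk : 1 ≤ k)
    (hω : G.cliqueNum = k) : (n : ℝ) ≤ 240 * k ^ 2 / Real.log (3 * k) := by
  classical
  have hk' : (1 : ℝ) ≤ k := by exact_mod_cast hk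
  have := card_bound Gᶜ (k4_of G h) (kite_of G h) k hk (by
    intro W hW
    rw [← hω]
    apply SimpleGraph.IsClique.card_le_cliqueNum
    intro a ha b hb hab
    have := hW a ha b hb
    rw [SimpleGraph.compl_adj] at this
    tauto)
  rw [Fintype.card_fin] at this
  rw [le_div_iff₀ (Real.log_pos (by linarith))]
  exact this

lemma lower (n : ℕ) (T : SimpleGraph (Fin n)) (hT : T.CliqueFree 3) :
    InClass Tᶜ ∧ ∀ m, Tᶜ.Colorable m → n ≤ 2 * m := by
  classical
  have tri : ∀ a b c, a ≠ b → a ≠ c → b ≠ c → ¬ Tᶜ.Adj a b → ¬ Tᶜ.Adj a c → ¬ Tᶜ.Adj b c →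
      False := by
    intro a b c n1 n2 n3 h1 h2 h3
    rw [SimpleGraph.compl_adj] at h1 h2 h3
    exact hT {a, b, c} (SimpleGraph.is3Clique_triple_iff.2 ⟨by tauto, by tauto, by tauto⟩)
  refine ⟨⟨⟨fun f => ?_⟩, ⟨fun f => ?_⟩⟩, ?_⟩
  · refine tri (f 1) (f 2) (f 3) (f.injective.ne (by decide)) (f.injective.ne (by decide))
      (f.injective.ne (by decide)) ?_ ?_ ?_ <;> rw [f.map_rel_iff] <;> simp [fork]
  · refine tri (f 1) (f 2) (f 3) (f.injective.ne (by decide)) (f.injective.ne (by decide))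
      (f.injective.ne (by decide)) ?_ ?_ ?_ <;> rw [f.map_rel_iff] <;> simp
  · rintro m ⟨C⟩
    have h1 : (univ : Finset (Fin n)).card ≤ 2 * (univ : Finset (Fin m)).card := by
      refine card_le_mul_card_image_of_maps_to (f := C) (fun _ _ => mem_univ _) 2 ?_
      intro t _
      by_contra hc
      push Not at hc
      obtain ⟨a, b, c, ha, hb, hc, n1, n2, n3⟩ := two_lt_card_iff.1 hc
      have ha' := (mem_filter.1 ha).2
      have hb' := (mem_filter.1 hb).2
      have hc' := (mem_filter.1 hc).2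
      exact tri a b c n1 n2 n3 (fun h => C.valid h (ha'.trans hb'.symm))
        (fun h => C.valid h (ha'.trans hc'.symm)) (fun h => C.valid h (hb'.trans hc'.symm))
    simpa using h1

theorem result :
    (∀ (n : ℕ) (G : SimpleGraph (Fin n)) (k : ℕ), InClass G → 1 ≤ k → G.cliqueNum = k →
      (n : ℝ) ≤ 240 * k ^ 2 / Real.log (3 * k) ∧
      ∃ m : ℕ, G.chromaticNumber = m ∧ (m : ℝ) ≤ 240 * k ^ 2 / Real.log (3 * k)) ∧
    (∀ (n : ℕ) (T : SimpleGraph (Fin n)), T.CliqueFree 3 →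
      InClass Tᶜ ∧ Tᶜ.cliqueNum = T.indepNum ∧ ∀ m, Tᶜ.Colorable m → n ≤ 2 * m) := by
  classical
  refine ⟨fun n G k h hk hω => ⟨upper n G h k hk hω, ?_⟩, fun n T hT =>
    ⟨(lower n T hT).1, SimpleGraph.cliqueNum_compl, (lower n T hT).2⟩⟩
  have h1 : G.chromaticNumber ≤ (n : ℕ∞) := by
    have := G.colorable_of_fintype.chromaticNumber_le
    simpa using this
  obtain ⟨m, hm⟩ := ENat.ne_top_iff_exists.1 (ne_top_of_le_ne_top (ENat.natCast_ne_top n) h1)
  refine ⟨m, hm.symm, le_trans ?_ (upper n G h k hk hω)⟩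
  rw [← hm] at h1
  exact_mod_cast h1

end Pool.Agent.Results.MP_fad78f_co.Order
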